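import Pool.Agent.TH502.RM.GCheck2

set_option autoImplicit false

/-!
# Rows with mixed cells

A row is a line together with a subdivision of the interval of red densities into cells; every cell is
won either by the two-reservoir book theorem (`two`), or by the one-reservoir norm book theorem in the
red colour (`red`) or in the blue colour (`blue`).
-/

namespace Pool.Agent.T2h39.DU6

open H110R2 W478R Pool.Agent.TH428.RM Pool.Agent.TH502.RM

/-- a density cell with upper end `ph` -/
inductive XCell
  | two (c : GCell2)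
  | red (ph : ℕ) (P : NP)
  | blue (ph : ℕ) (P : NP)

/-- upper end of the cell -/
def XCell.ph : XCell → ℕ
  | .two c => c.g.ph
  | .red ph _ => ph
  | .blue ph _ => ph

/-- check of one cell `[pl, c.ph]` for the line `L` with active cone given by `lo, hi, top` -/
def xcellchk (N B0 : ℕ) (cs : List CC) (Ls : List (ℕ × ℕ)) (L lo hi : ℕ × ℕ) (top : Bool) (pl : ℕ) :
    XCell → Bool
  | .two c => cellchk2 N B0 cs Ls L lo hi top pl c
  | .red _ P => npchk N Ls P && decide (P.p < pl) &&
      slackChk N L lo hi top (((N : ℤ) + P.q) * L.1 - (P.A + 1) * N)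
        (((N : ℤ) + P.q) * L.2 - (P.B + P.W) * N)
  | .blue ph P => npchk N Ls P && decide (P.p + ph < N) &&
      slackChk N L lo hi top (((N : ℤ) + P.q) * L.1 - (P.B + P.W + 1) * N)
        (((N : ℤ) + P.q) * L.2 - P.A * N)

/-- check of a list of consecutive cells -/
def xcellschk (N B0 : ℕ) (cs : List CC) (Ls : List (ℕ × ℕ)) (L lo hi : ℕ × ℕ) (top : Bool) :
    ℕ → List XCell → Bool
  | pl, [] => decide (1 < pl) && expL N L.1 N (pl - 1)
  | pl, r :: rs => xcellchk N B0 cs Ls L lo hi top pl r && xcellschk N B0 cs Ls L lo hi top r.ph rs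

/-- a row: a new line with its data -/
structure XRow where
  L : ℕ × ℕ
  lo : ℕ × ℕ
  hi : ℕ × ℕ
  top : Bool
  p0 : ℕ
  cells : List XCell

/-- check of a row -/
def xrowchk (N B0 : ℕ) (cs : List CC) (Ls : List (ℕ × ℕ)) (r : XRow) : Bool :=
  decide (0 < r.L.1) && decide (r.L.1 ≤ r.L.2) && hasL Ls r.lo && (r.top || hasL Ls r.hi) &&
  decide (r.p0 + 1 < N) && expL N r.L.2 N (N - r.p0 - 1) &&
  xcellschk N B0 cs Ls r.L r.lo r.hi r.top r.p0 r.cells

end Pool.Agent.T2h39.DU6
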