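import Pool.Agent.W478R.GCheck
import Pool.Agent.H110R2.Check2

/-!
# From a family of lines to Ramsey numbers, uniformly in the skewness
-/

set_option autoImplicit false

namespace Pool.Agent.T2h39.DU6

open H110R2 W478R Filter

/-- `log ((k + l) ^ (k + l) / (k ^ k * l ^ l))` -/
noncomputable def hh (k l : ℝ) : ℝ := (k + l) * Real.log (k + l) - k * Real.log k - l * Real.log l

theorem hh_smul {s k l : ℝ} (hs : 0 < s) (hk : 0 < k) (hl : 0 < l) : hh (s * k) (s * l) = s * hh k l := by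
  unfold hh
  rw [← mul_add, Real.log_mul hs.ne' (by positivity), Real.log_mul hs.ne' hk.ne',
    Real.log_mul hs.ne' hl.ne']
  ring

theorem logsum {a c X Y : ℝ} (ha : 0 < a) (hc : 0 < c) (hX : 0 < X) (hY : 0 < Y) :
    (a + c) * Real.log ((a + c) / (X + Y)) ≤ a * Real.log (a / X) + c * Real.log (c / Y) := by
  have key : ∀ {x Z : ℝ}, 0 < x → 0 < Z → x * Real.log ((a + c) / (X + Y)) ≤ x * Real.log (x / Z) +
      ((a + c) / (X + Y) * Z - x) := by
    intro x Z hx hZ
    have h1 : Real.log (((a + c) / (X + Y)) / (x / Z)) ≤ ((a + c) / (X + Y)) / (x / Z) - 1 :=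
      Real.log_le_sub_one_of_pos (by positivity)
    rw [Real.log_div (by positivity) (by positivity)] at h1
    have h2 := mul_le_mul_of_nonneg_left h1 hx.le
    have h3 : x * (((a + c) / (X + Y)) / (x / Z) - 1) = (a + c) / (X + Y) * Z - x := by
      field_simp
    rw [h3] at h2
    linarith
  have h1 := key ha hX
  have h2 := key hc hY
  have h3 : (a + c) / (X + Y) * X + (a + c) / (X + Y) * Y = a + c := by
    field_simp
  linarith

theorem hh_eq {k l : ℝ} (hk : 0 < k) (hl : 0 < l) :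
    hh k l = - (k * Real.log (k / (k + l)) + l * Real.log (l / (k + l))) := by
  unfold hh
  rw [Real.log_div hk.ne' (by positivity), Real.log_div hl.ne' (by positivity)]
  ring

theorem hh_super {a b c d : ℝ} (ha : 0 < a) (hb : 0 < b) (hc : 0 < c) (hd : 0 < d) :
    hh a b + hh c d ≤ hh (a + c) (b + d) := by
  rw [hh_eq ha hb, hh_eq hc hd, hh_eq (by positivity) (by positivity)]
  have h1 := logsum ha hc (show 0 < a + b by positivity) (show 0 < c + d by positivity)
  have h2 := logsum hb hd (show 0 < a + b by positivity) (show 0 < c + d by positivity)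
  have e : a + b + (c + d) = a + c + (b + d) := by ring
  rw [e] at h1 h2
  linarith

/-- a function `hh - linear` that is nonnegative on two rays is nonnegative on the cone between them -/
theorem cone {k₁ l₁ k₂ l₂ k l u v : ℝ} (hk₁ : 0 < k₁) (hl₁ : 0 < l₁) (hk₂ : 0 < k₂) (hl₂ : 0 < l₂)
    (hk : 0 < k) (hl : 0 < l) (h1 : u * k₁ + v * l₁ ≤ hh k₁ l₁) (h2 : u * k₂ + v * l₂ ≤ hh k₂ l₂)
    (ha : k₁ * l ≤ k * l₁) (hb : k * l₂ ≤ k₂ * l) : u * k + v * l ≤ hh k l := by
  rcases ha.eq_or_lt with ha | ha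
  · -- on the first ray
    have e1 : k = l / l₁ * k₁ := by
      field_simp
      linarith
    have e2 : l = l / l₁ * l₁ := by field_simp
    have h3 : hh k l = l / l₁ * hh k₁ l₁ := by
      conv_lhs => rw [e1, e2]
      rw [show l / l₁ * l₁ / l₁ = l / l₁ by field_simp]
      exact hh_smul (by positivity) hk₁ hl₁
    rw [h3]
    have h4 : u * k + v * l = l / l₁ * (u * k₁ + v * l₁) := by
      rw [mul_add]
      rw [show l / l₁ * (u * k₁) = u * (l / l₁ * k₁) by ring, ← e1,
        show l / l₁ * (v * l₁) = v * (l / l₁ * l₁) by ring, ← e2]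
    rw [h4]
    exact mul_le_mul_of_nonneg_left h1 (by positivity)
  · rcases hb.eq_or_lt with hb | hb
    · have e1 : k = l / l₂ * k₂ := by
        field_simp
        linarith
      have e2 : l = l / l₂ * l₂ := by field_simp
      have h3 : hh k l = l / l₂ * hh k₂ l₂ := by
        conv_lhs => rw [e1, e2]
        rw [show l / l₂ * l₂ / l₂ = l / l₂ by field_simp]
        exact hh_smul (by positivity) hk₂ hl₂
      rw [h3]
      have h4 : u * k + v * l = l / l₂ * (u * k₂ + v * l₂) := by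
        rw [mul_add]
        rw [show l / l₂ * (u * k₂) = u * (l / l₂ * k₂) by ring, ← e1,
          show l / l₂ * (v * l₂) = v * (l / l₂ * l₂) by ring, ← e2]
      rw [h4]
      exact mul_le_mul_of_nonneg_left h2 (by positivity)
    · -- strictly inside
      have hD : 0 < k₂ * l₁ - k₁ * l₂ := by
        have h3 : k₁ * l * l₂ < k * l₁ * l₂ := mul_lt_mul_of_pos_right ha hl₂
        have h4 : k * l₂ * l₁ < k₂ * l * l₁ := mul_lt_mul_of_pos_right hb hl₁
        have h5 : k₁ * l₂ * l < k₂ * l₁ * l := by nlinarith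
        have h6 := lt_of_mul_lt_mul_right h5 hl.le
        linarith
      obtain ⟨s, hs⟩ : ∃ s, s = (k₂ * l - k * l₂) / (k₂ * l₁ - k₁ * l₂) := ⟨_, rfl⟩
      obtain ⟨t, ht⟩ : ∃ t, t = (k * l₁ - k₁ * l) / (k₂ * l₁ - k₁ * l₂) := ⟨_, rfl⟩
      have hs0 : 0 < s := by rw [hs]; exact div_pos (by linarith) hD
      have ht0 : 0 < t := by rw [ht]; exact div_pos (by linarith) hD
      have ek : k = s * k₁ + t * k₂ := by
        rw [hs, ht, div_mul_eq_mul_div, div_mul_eq_mul_div, ← add_div, eq_div_iff hD.ne']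
        ring
      have el : l = s * l₁ + t * l₂ := by
        rw [hs, ht, div_mul_eq_mul_div, div_mul_eq_mul_div, ← add_div, eq_div_iff hD.ne']
        ring
      have h3 := hh_super (mul_pos hs0 hk₁) (mul_pos hs0 hl₁) (mul_pos ht0 hk₂) (mul_pos ht0 hl₂)
      rw [hh_smul hs0 hk₁ hl₁, hh_smul ht0 hk₂ hl₂, ← ek, ← el] at h3
      have h4 := mul_le_mul_of_nonneg_left h1 hs0.le
      have h5 := mul_le_mul_of_nonneg_left h2 ht0.le
      have h6 : u * k + v * l = s * (u * k₁ + v * l₁) + t * (u * k₂ + v * l₂) := by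
        conv_lhs => rw [ek, el]
        ring
      rw [h6]
      linarith

/-- a line, two rays and a constant -/
structure Seg where
  L : ℕ × ℕ
  k1 : ℕ
  l1 : ℕ
  k2 : ℕ
  l2 : ℕ
  c : ℕ

/-- check of the value on a ray -/
def raychk (N : ℕ) (L : ℕ × ℕ) (c k l : ℕ) : Bool :=
  decide (0 < k) && decide (0 < l) &&
    expU N (L.1 * k + L.2 * l + c * l) ((k + l) ^ (k + l)) (k ^ k * l ^ l)

/-- check of a segment -/
def segchk (N : ℕ) (Ls : List (ℕ × ℕ)) (s : Seg) : Bool :=
  hasL Ls s.L && raychk N s.L s.c s.k1 s.l1 && raychk N s.L s.c s.k2 s.l2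

theorem raychk_sound {N : ℕ} (hN : 0 < N) {L : ℕ × ℕ} {c k l : ℕ} (h : raychk N L c k l = true) :
    0 < k ∧ 0 < l ∧ (L.1 : ℝ) / N * k + ((L.2 : ℝ) / N + (c : ℝ) / N) * l ≤ hh k l := by
  unfold raychk at h
  simp only [Bool.and_eq_true, decide_eq_true_eq] at h
  obtain ⟨⟨hk, hl⟩, h⟩ := h
  refine ⟨hk, hl, ?_⟩
  have hk' : (0 : ℝ) < k := by exact_mod_cast hk
  have hl' : (0 : ℝ) < l := by exact_mod_cast hl
  have h1 := expU_sound hN h
  rw [← Real.le_log_iff_exp_le (by positivity)] at h1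
  push_cast at h1
  rw [Real.log_div (by positivity) (by positivity), Real.log_mul (by positivity) (by positivity),
    Real.log_pow, Real.log_pow, Real.log_pow] at h1
  push_cast at h1
  have hN' : (0 : ℝ) < N := by exact_mod_cast hN
  have h2 : (L.1 : ℝ) / N * k + ((L.2 : ℝ) / N + (c : ℝ) / N) * l =
      ((L.1 : ℝ) * k + L.2 * l + c * l) / N := by
    field_simp
    ring
  rw [h2]
  unfold hh
  linarith

theorem segchk_sound {N : ℕ} (hN : 0 < N) {Ls : List (ℕ × ℕ)} {s : Seg} (h : segchk N Ls s = true)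
    {k l : ℕ} (hk : 0 < k) (hl : 0 < l) (h1 : s.k1 * l ≤ k * s.l1) (h2 : k * s.l2 ≤ s.k2 * l) :
    s.L ∈ Ls ∧ lv (rl N s.L) k l ≤ hh k l - (s.c : ℝ) / N * l := by
  unfold segchk at h
  simp only [Bool.and_eq_true] at h
  obtain ⟨⟨hL, hr1⟩, hr2⟩ := h
  obtain ⟨a1, a2, a3⟩ := raychk_sound hN hr1
  obtain ⟨b1, b2, b3⟩ := raychk_sound hN hr2
  refine ⟨hasL_sound hL, ?_⟩
  have := cone (k := k) (l := l) (u := (s.L.1 : ℝ) / N) (v := (s.L.2 : ℝ) / N + (s.c : ℝ) / N)
    (by exact_mod_cast a1 : (0 : ℝ) < s.k1) (by exact_mod_cast a2 : (0 : ℝ) < s.l1)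
    (by exact_mod_cast b1 : (0 : ℝ) < s.k2) (by exact_mod_cast b2 : (0 : ℝ) < s.l2)
    (by exact_mod_cast hk) (by exact_mod_cast hl) a3 b3 (by exact_mod_cast h1) (by exact_mod_cast h2)
  unfold lv rl
  simp only
  linarith

/-- check that the consecutive segments cover the ratios between `p` and `e` -/
def chain (N : ℕ) (Ls : List (ℕ × ℕ)) (c0 : ℕ) (e : ℕ × ℕ) : ℕ × ℕ → List Seg → Bool
  | p, [] => decide (0 < p.2) && decide (e.1 * p.2 ≤ p.1 * e.2)
  | p, s :: r => segchk N Ls s && decide (c0 ≤ s.c) && decide (s.k1 * p.2 ≤ p.1 * s.l1) &&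
      decide (0 < p.2) && chain N Ls c0 e (s.k2, s.l2) r

theorem chain_cover {N : ℕ} {Ls : List (ℕ × ℕ)} {c0 : ℕ} {e : ℕ × ℕ} (he : 0 < e.2) (segs : List Seg) :
    ∀ p : ℕ × ℕ, chain N Ls c0 e p segs = true → ∀ k l : ℕ, 0 < l → p.1 * l < k * p.2 →
      k * e.2 ≤ e.1 * l →
      ∃ s ∈ segs, segchk N Ls s = true ∧ c0 ≤ s.c ∧ s.k1 * l ≤ k * s.l1 ∧ k * s.l2 ≤ s.k2 * l := by
  induction segs with
  | nil =>
    intro p h k l hl h1 h2
    exfalso
    simp only [chain, Bool.and_eq_true, decide_eq_true_eq] at h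
    obtain ⟨hp, h⟩ := h
    have h3 : k * e.2 * p.2 ≤ e.1 * l * p.2 := Nat.mul_le_mul_right _ h2
    have h4 : e.1 * p.2 * l ≤ p.1 * e.2 * l := Nat.mul_le_mul_right _ h
    have h5 : p.1 * l * e.2 < k * p.2 * e.2 := Nat.mul_lt_mul_of_pos_right h1 he
    nlinarith
  | cons s r ih =>
    intro p h k l hl h1 h2
    simp only [chain, Bool.and_eq_true, decide_eq_true_eq] at h
    obtain ⟨⟨⟨⟨hs, hc⟩, hp⟩, hp2⟩, hr⟩ := h
    by_cases hk : k * s.l2 ≤ s.k2 * l
    · refine ⟨s, List.mem_cons_self, hs, hc, ?_, hk⟩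
      have h3 : s.k1 * p.2 * l ≤ p.1 * s.l1 * l := Nat.mul_le_mul_right _ hp
      have h4 : p.1 * l * s.l1 ≤ k * p.2 * s.l1 := Nat.mul_le_mul_right _ h1.le
      have h5 : s.k1 * l * p.2 ≤ k * s.l1 * p.2 := by nlinarith
      exact Nat.le_of_mul_le_mul_right h5 hp2
    · obtain ⟨s', hs', h'⟩ := ih _ hr k l hl (by simpa using hk) h2
      exact ⟨s', List.mem_cons_of_mem _ hs', h'⟩

theorem chain_cover' {N : ℕ} {Ls : List (ℕ × ℕ)} {c0 : ℕ} {e : ℕ × ℕ} (he : 0 < e.2) (s : Seg)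
    (r : List Seg) (p : ℕ × ℕ) (h : chain N Ls c0 e p (s :: r) = true) (k l : ℕ) (hl : 0 < l)
    (h1 : p.1 * l ≤ k * p.2) (h2 : k * e.2 ≤ e.1 * l) :
    ∃ s' ∈ s :: r, segchk N Ls s' = true ∧ c0 ≤ s'.c ∧ s'.k1 * l ≤ k * s'.l1 ∧
      k * s'.l2 ≤ s'.k2 * l := by
  simp only [chain, Bool.and_eq_true, decide_eq_true_eq] at h
  obtain ⟨⟨⟨⟨hs, hc⟩, hp⟩, hp2⟩, hr⟩ := h
  by_cases hk : k * s.l2 ≤ s.k2 * l
  · refine ⟨s, List.mem_cons_self, hs, hc, ?_, hk⟩
    have h3 : s.k1 * p.2 * l ≤ p.1 * s.l1 * l := Nat.mul_le_mul_right _ hp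
    have h4 : p.1 * l * s.l1 ≤ k * p.2 * s.l1 := Nat.mul_le_mul_right _ h1
    have h5 : s.k1 * l * p.2 ≤ k * s.l1 * p.2 := by nlinarith
    exact Nat.le_of_mul_le_mul_right h5 hp2
  · obtain ⟨s', hs', h'⟩ := chain_cover he r _ hr k l hl (by simpa using hk) h2
    exact ⟨s', List.mem_cons_of_mem _ hs', h'⟩

/-! ## the binomial coefficient -/

/-- the largest term of the expansion of `(k + l) ^ (k + l)` -/
theorem term_le (k l : ℕ) : ∀ j ≤ k + l, (k + l).choose j * k ^ j * l ^ (k + l - j) ≤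
    (k + l).choose k * k ^ k * l ^ l := by
  -- one step
  have step : ∀ j, j + 1 ≤ k + l → ((k + l).choose (j + 1) * k ^ (j + 1) * l ^ (k + l - (j + 1))) *
      ((j + 1) * l) = ((k + l).choose j * k ^ j * l ^ (k + l - j)) * ((k + l - j) * k) := by
    intro j hj
    have h1 := Nat.choose_succ_right_eq (k + l) j
    have h2 : k + l - j = k + l - (j + 1) + 1 := by omega
    calc ((k + l).choose (j + 1) * k ^ (j + 1) * l ^ (k + l - (j + 1))) * ((j + 1) * l)
        = ((k + l).choose (j + 1) * (j + 1)) * (k ^ (j + 1) * (l ^ (k + l - (j + 1)) * l)) := by ring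
      _ = ((k + l).choose j * (k + l - j)) * (k ^ (j + 1) * (l ^ (k + l - (j + 1)) * l)) := by rw [h1]
      _ = ((k + l).choose j * k ^ j * (l ^ (k + l - (j + 1)) * l)) * ((k + l - j) * k) := by
          rw [pow_succ]; ring
      _ = _ := by rw [← pow_succ, ← h2]
  rcases Nat.eq_zero_or_pos l with hl0 | hl
  · subst hl0
    intro j hj
    rcases Nat.lt_or_ge j k with h | h
    · have : k + 0 - j ≠ 0 := by omega
      rw [zero_pow this]
      simp
    · have : j = k := by omega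
      subst this
      simp
  have hpos : ∀ j, 0 < (j + 1) * l := fun j => Nat.mul_pos (by omega) hl
  -- increasing up to `k`
  have up : ∀ i j, i + j = k → (k + l).choose j * k ^ j * l ^ (k + l - j) ≤
      (k + l).choose k * k ^ k * l ^ l := by
    intro i
    induction i with
    | zero =>
      intro j hj
      have : j = k := by omega
      subst this
      rw [Nat.add_sub_cancel_left]
    | succ i ih =>
      intro j hj
      refine le_trans ?_ (ih (j + 1) (by omega))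
      have h1 := step j (by omega)
      have h2 : (j + 1) * l ≤ (k + l - j) * k := by
        have h3 : k + l - j = l + (i + 1) := by omega
        have h4 : k = i + 1 + j := by omega
        rw [h3, h4]
        nlinarith
      have h3 : (k + l).choose j * k ^ j * l ^ (k + l - j) * ((j + 1) * l) ≤
          (k + l).choose (j + 1) * k ^ (j + 1) * l ^ (k + l - (j + 1)) * ((j + 1) * l) := by
        rw [h1]
        exact Nat.mul_le_mul_left _ h2
      exact Nat.le_of_mul_le_mul_right h3 (hpos j)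
  -- decreasing beyond `k`
  have down : ∀ i, k + i ≤ k + l → (k + l).choose (k + i) * k ^ (k + i) * l ^ (k + l - (k + i)) ≤
      (k + l).choose k * k ^ k * l ^ l := by
    intro i
    induction i with
    | zero =>
      intro _
      rw [Nat.add_zero, Nat.add_sub_cancel_left]
    | succ i ih =>
      intro hi
      refine le_trans ?_ (ih (by omega))
      have h1 := step (k + i) (by omega)
      have h2 : (k + l - (k + i)) * k ≤ (k + i + 1) * l := by
        have h3 : k + l - (k + i) = l - i := by omega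
        rw [h3]
        calc (l - i) * k ≤ l * k := Nat.mul_le_mul_right _ (by omega)
          _ ≤ (k + i + 1) * l := by nlinarith
      have h3 : (k + l).choose (k + i + 1) * k ^ (k + i + 1) * l ^ (k + l - (k + i + 1)) *
          ((k + i + 1) * l) ≤ (k + l).choose (k + i) * k ^ (k + i) * l ^ (k + l - (k + i)) *
          ((k + i + 1) * l) := by
        rw [h1]
        exact Nat.mul_le_mul_left _ h2
      exact Nat.le_of_mul_le_mul_right h3 (hpos _)
  intro j hj
  rcases Nat.le_total j k with h | h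
  · exact up (k - j) j (by omega)
  · obtain ⟨i, rfl⟩ := Nat.exists_eq_add_of_le h
    exact down i hj

theorem pow_le_choose (k l : ℕ) :
    (k + l) ^ (k + l) ≤ (k + l + 1) * ((k + l).choose l * (k ^ k * l ^ l)) := by
  rw [add_pow k l (k + l)]
  calc ∑ m ∈ Finset.range (k + l + 1), k ^ m * l ^ (k + l - m) * (k + l).choose m
      ≤ ∑ m ∈ Finset.range (k + l + 1), (k + l).choose l * (k ^ k * l ^ l) := by
        refine Finset.sum_le_sum fun m hm => ?_
        have h1 := term_le k l m (by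
          rw [Finset.mem_range] at hm
          omega)
        have h2 : (k + l).choose l = (k + l).choose k := by
          rw [← Nat.choose_symm_add]
        rw [h2]
        nlinarith
    _ = _ := by
        rw [Finset.sum_const, Finset.card_range, smul_eq_mul]

theorem exp_hh_le {k l : ℕ} (hk : 0 < k) (hl : 0 < l) :
    Real.exp (hh k l) ≤ ((k : ℝ) + l + 1) * ((k + l).choose l : ℝ) := by
  have hk' : (0 : ℝ) < k := by exact_mod_cast hk
  have hl' : (0 : ℝ) < l := by exact_mod_cast hl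
  have h1 : ((k : ℝ) + l) ^ (k + l) ≤ ((k : ℝ) + l + 1) * (((k + l).choose l : ℝ) * ((k : ℝ) ^ k * (l : ℝ) ^ l)) := by
    exact_mod_cast pow_le_choose k l
  have h2 : Real.exp (hh k l) = ((k : ℝ) + l) ^ (k + l) / ((k : ℝ) ^ k * (l : ℝ) ^ l) := by
    have e1 : ((k : ℝ) + l) ^ (k + l) = Real.exp (((k : ℝ) + l) * Real.log ((k : ℝ) + l)) := by
      rw [← Real.rpow_natCast, Real.rpow_def_of_pos (by positivity)]
      push_cast
      rw [mul_comm]
    have e2 : (k : ℝ) ^ k = Real.exp ((k : ℝ) * Real.log k) := by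
      rw [← Real.rpow_natCast, Real.rpow_def_of_pos hk', mul_comm]
    have e3 : (l : ℝ) ^ l = Real.exp ((l : ℝ) * Real.log l) := by
      rw [← Real.rpow_natCast, Real.rpow_def_of_pos hl', mul_comm]
    rw [e1, e2, e3, ← Real.exp_add, ← Real.exp_sub]
    congr 1
    unfold hh
    ring
  rw [h2, div_le_iff₀ (by positivity)]
  linarith

/-! ## Ramsey numbers -/

/-- Every graph on `n` vertices has a clique with `k` vertices or an independent set with `l` vertices. -/
def Arrows (n k l : ℕ) : Prop :=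
  ∀ G : SimpleGraph (Fin n), (∃ s : Finset (Fin n), G.IsNClique k s) ∨
    (∃ s : Finset (Fin n), Gᶜ.IsNClique l s)

/-- The Ramsey number `R(k, l)` -/
noncomputable def R (k l : ℕ) : ℕ := sInf {n : ℕ | 0 < n ∧ Arrows n k l}

theorem arrows_of {Ls : List (ℝ × ℝ)} {C : ℝ} {k l : ℕ} (hb : BdAt Ls C k l) {L : ℝ × ℝ} (hL : L ∈ Ls)
    {n : ℕ} (hn : C * Real.exp (lv L k l) < n) : Arrows n k l := by
  classical
  intro G
  by_contra hcon
  push Not at hcon
  obtain ⟨h1, h2⟩ := hcon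
  have h3 := (hb (Fin n) G Finset.univ (fun T _ => h1 T) (fun T _ => h2 T) L hL).1
  rw [Finset.card_univ, Fintype.card_fin] at h3
  linarith

theorem R_le {k l : ℕ} {n : ℕ} (hn : 0 < n) (h : Arrows n k l) :
    (0 < R k l ∧ Arrows (R k l) k l) ∧ R k l ≤ n :=
  ⟨Nat.sInf_mem (s := {n : ℕ | 0 < n ∧ Arrows n k l}) ⟨n, hn, h⟩, Nat.sInf_le ⟨hn, h⟩⟩

theorem skew_of {N : ℕ} (hN : 0 < N) {Ls : List (ℕ × ℕ)} {C : ℝ} (hC : 1 ≤ C)
    (hb : ∀ k l : ℕ, BdAt (Ls.map (rl N)) C k l) (s : Seg) (segs : List Seg) {a b a' b' c0 : ℕ}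
    (hb' : 0 < b') (hchk : chain N Ls c0 (a', b') (a, b) (s :: segs) = true) {c' : ℝ}
    (hc' : c' < (c0 : ℝ) / N) :
    ∃ K : ℕ, ∀ k l : ℕ, K ≤ l → a * l ≤ k * b → k * b' ≤ a' * l →
      (0 < R k l ∧ Arrows (R k l) k l) ∧
      (R k l : ℝ) < Real.exp (-(c' * l)) * ((k + l).choose l : ℝ) := by
  have hN' : (0 : ℝ) < N := by exact_mod_cast hN
  obtain ⟨δ, hδ⟩ : ∃ δ : ℝ, δ = (c0 : ℝ) / N - c' := ⟨_, rfl⟩
  have hδ0 : 0 < δ := by rw [hδ]; linarith
  -- the threshold
  have hlim : Tendsto (fun l : ℕ => (2 * C * (a' + 2)) * ((l : ℝ) * Real.exp (-(δ * l)))) atTop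
      (nhds 0) := by
    have h1 : Tendsto (fun x : ℝ => x * Real.exp (-(δ * x))) atTop (nhds 0) := by
      have h2 := (Real.tendsto_pow_mul_exp_neg_atTop_nhds_zero 1).comp
        (tendsto_id.const_mul_atTop hδ0 : Tendsto (fun x : ℝ => δ * x) atTop atTop)
      have h3 := h2.const_mul (1 / δ)
      rw [mul_zero] at h3
      refine h3.congr fun x => ?_
      simp only [Function.comp, pow_one]
      field_simp
    have h4 := (h1.comp tendsto_natCast_atTop_atTop).const_mul (2 * C * (a' + 2))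
    rw [mul_zero] at h4
    exact h4
  obtain ⟨K, hK⟩ := eventually_atTop.1 (hlim.eventually_lt_const (show (0 : ℝ) < 1 by norm_num))
  refine ⟨max K 1, fun k l hl h1 h2 => ?_⟩
  have hl0 : 0 < l := by
    have := (le_max_right K 1).trans hl
    omega
  have hKl := hK l ((le_max_left _ _).trans hl)
  obtain ⟨s', hs', hsc, hc0, h3, h4⟩ := chain_cover' hb' s segs (a, b) hchk k l hl0 h1 h2
  -- `k > 0`
  have hk0 : 0 < k := by
    have hsc' := hsc
    unfold segchk at hsc'
    simp only [Bool.and_eq_true] at hsc'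
    obtain ⟨a1, a2, a3⟩ := raychk_sound hN hsc'.1.2
    by_contra h0
    have : k = 0 := by omega
    rw [this, zero_mul] at h3
    have := Nat.mul_pos a1 hl0
    omega
  obtain ⟨hL, hlv⟩ := segchk_sound hN hsc hk0 hl0 h3 h4
  have hkr : (0 : ℝ) < k := by exact_mod_cast hk0
  have hlr : (1 : ℝ) ≤ l := by exact_mod_cast hl0
  have hexp := exp_hh_le hk0 hl0
  have hbin : (0 : ℝ) < ((k + l).choose l : ℝ) := by
    exact_mod_cast Nat.choose_pos (by omega)
  have hlv0 : 0 ≤ lv (rl N s'.L) k l := by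
    unfold lv rl
    positivity
  -- `exp (lv) ≤ (k + l + 1) * binom * exp (- c0 / N * l)`
  have hcc : (c0 : ℝ) / N * l ≤ (s'.c : ℝ) / N * l := by
    have : (c0 : ℝ) ≤ s'.c := by exact_mod_cast hc0
    gcongr
  have hmain : Real.exp (lv (rl N s'.L) k l) ≤
      (((k : ℝ) + l + 1) * ((k + l).choose l : ℝ)) * Real.exp (-((c0 : ℝ) / N * l)) := by
    calc Real.exp (lv (rl N s'.L) k l) ≤ Real.exp (hh k l + -((c0 : ℝ) / N * l)) := by
          apply Real.exp_le_exp.2
          linarith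
      _ = Real.exp (hh k l) * Real.exp (-((c0 : ℝ) / N * l)) := Real.exp_add _ _
      _ ≤ _ := mul_le_mul_of_nonneg_right hexp (Real.exp_pos _).le
  have hone : (1 : ℝ) ≤ Real.exp (lv (rl N s'.L) k l) := Real.one_le_exp hlv0
  obtain ⟨n, hn⟩ : ∃ n : ℕ, n = ⌊C * Real.exp (lv (rl N s'.L) k l)⌋₊ + 1 := ⟨_, rfl⟩
  have hn1 : C * Real.exp (lv (rl N s'.L) k l) < n := by
    rw [hn]
    push_cast
    exact Nat.lt_floor_add_one _
  have hn2 : (n : ℝ) ≤ 2 * C * Real.exp (lv (rl N s'.L) k l) := by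
    rw [hn]
    push_cast
    have h5 := Nat.floor_le (show 0 ≤ C * Real.exp (lv (rl N s'.L) k l) by positivity)
    nlinarith
  have harr := arrows_of (hb k l) (List.mem_map_of_mem hL) hn1
  obtain ⟨hR1, hR2⟩ := R_le (by omega) harr
  refine ⟨hR1, ?_⟩
  have hR3 : (R k l : ℝ) ≤ n := by exact_mod_cast hR2
  -- `k + l + 1 ≤ (a' + 2) l`
  have hkl : (k : ℝ) + l + 1 ≤ (a' + 2) * l := by
    have h5 : k ≤ a' * l := by
      calc k = k * 1 := (mul_one k).symm
        _ ≤ k * b' := Nat.mul_le_mul_left _ hb'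
        _ ≤ a' * l := h2
    have h6 : (k : ℝ) ≤ a' * l := by exact_mod_cast h5
    nlinarith
  have hsplit : Real.exp (-((c0 : ℝ) / N * l)) = Real.exp (-(δ * l)) * Real.exp (-(c' * l)) := by
    rw [← Real.exp_add]
    congr 1
    rw [hδ]
    ring
  have hfin : 2 * C * ((((k : ℝ) + l + 1) * ((k + l).choose l : ℝ)) * Real.exp (-((c0 : ℝ) / N * l))) ≤
      ((2 * C * (a' + 2)) * ((l : ℝ) * Real.exp (-(δ * l)))) *
        (Real.exp (-(c' * l)) * ((k + l).choose l : ℝ)) := by
    rw [hsplit]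
    have h7 : 2 * C * ((((k : ℝ) + l + 1) * ((k + l).choose l : ℝ)) *
        (Real.exp (-(δ * l)) * Real.exp (-(c' * l)))) = ((k : ℝ) + l + 1) *
        (2 * C * ((k + l).choose l : ℝ) * (Real.exp (-(δ * l)) * Real.exp (-(c' * l)))) := by ring
    have h8 : ((2 * C * (a' + 2)) * ((l : ℝ) * Real.exp (-(δ * l)))) *
        (Real.exp (-(c' * l)) * ((k + l).choose l : ℝ)) = ((a' + 2) * l) *
        (2 * C * ((k + l).choose l : ℝ) * (Real.exp (-(δ * l)) * Real.exp (-(c' * l)))) := by ring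
    rw [h7, h8]
    exact mul_le_mul_of_nonneg_right hkl (by positivity)
  have hpos : 0 < Real.exp (-(c' * l)) * ((k + l).choose l : ℝ) := by positivity
  calc (R k l : ℝ) ≤ n := hR3
    _ ≤ 2 * C * Real.exp (lv (rl N s'.L) k l) := hn2
    _ ≤ 2 * C * ((((k : ℝ) + l + 1) * ((k + l).choose l : ℝ)) *
        Real.exp (-((c0 : ℝ) / N * l))) := mul_le_mul_of_nonneg_left hmain (by positivity)
    _ ≤ _ := hfin
    _ < 1 * (Real.exp (-(c' * l)) * ((k + l).choose l : ℝ)) := mul_lt_mul_of_pos_right hKl hpos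
    _ = _ := one_mul _

end Pool.Agent.T2h39.DU6
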