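import Pool.Agent.T2h39.DU6.Defs
import Pool.Agent.H110R2.Check2

set_option autoImplicit false
set_option linter.unusedVariables false

/-!
# Rows with mixed cells: soundness (helper93)
-/

open Finset

namespace Pool.Agent.T2h39.DU6

open H110R2 W478R Pool.Agent.TH428.RM Pool.Agent.TH502.RM

/-- The cell `[plo, phi]` is won for the line `L`, by a set `X` of at least `|U| / J` vertices with
densities in the cell. -/
def WinC (Ls : List (ℝ × ℝ)) (L : ℝ × ℝ) (J : ℕ) (plo phi : ℝ) : Prop :=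
  ∃ k0 : ℕ, ∀ C : ℝ, 1 ≤ C → ∀ k l : ℕ, k0 ≤ k → l ≤ k →
    (∀ L' ∈ Ls, lv L k l ≤ lv L' k l) →
    (∀ a b : ℕ, a + b < k + l → BdAt Ls C a b) →
    ∀ (V : Type) [DecidableEq V] (G : SimpleGraph V) (U X : Finset V),
      NoCl G k U → NoCl Gᶜ l U → C * Real.exp (lv L k l) < U.card →
      (U.card : ℝ) ≤ 2 * (C * Real.exp (lv L k l)) → X ⊆ U → (U.card : ℝ) ≤ J * X.card →
      (∀ x ∈ X, plo * U.card - 1 ≤ ((nb G x U).card : ℝ)) →
      (∀ x ∈ X, (1 - phi) * U.card - 1 ≤ ((nb Gᶜ x U).card : ℝ)) → False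

/-- Win by the book theorem with the book in `X` and the reservoir `U` (red orientation). -/
theorem win_hostX (L1 L2 : ℝ × ℝ) (b1 b2 : Bool) (t A B W q β0 T p δ σ : ℝ) (J : ℕ) (hJ : 0 < J)
    (ht0 : 0 ≤ t) (ht1 : t ≤ 1)
    (hA : t * (sw b1 L1).1 + (1 - t) * (sw b2 L2).1 ≤ A)
    (hB : t * (sw b1 L1).2 + (1 - t) * (sw b2 L2).2 ≤ B)
    (hn : NOK p q A W β0 T) (hδ : 0 < δ) (hσ : 0 < σ) :
    ∃ k0 : ℕ, ∀ (Ls : List (ℝ × ℝ)) (C Λ : ℝ), L1 ∈ Ls → L2 ∈ Ls → 1 ≤ C → ∀ n k l : ℕ,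
    k0 ≤ n →
    (Λ ≤ lv (sw b1 L1) k l) → (Λ ≤ lv (sw b2 L2) k l) →
    (∀ a : ℕ, a < k → BdAt Ls C a l) →
    A * k + (B + W) * l + σ * n ≤ (1 + q) * Λ →
    ∀ (V : Type) [DecidableEq V] (G : SimpleGraph V) (U X : Finset V), NoCl G k U → NoCl Gᶜ l U →
    C * Real.exp Λ < U.card → (U.card : ℝ) ≤ 2 * (C * Real.exp Λ) → X ⊆ U →
    (U.card : ℝ) ≤ J * X.card →
    (∀ x ∈ X, (p + δ) * U.card ≤ ((nb G x U).card : ℝ)) → False := by
  obtain ⟨c, hbk⟩ := nbook p q A W β0 T δ hn.hp0 hn.hp1 hn.hq hn.hβ0 hn.hβ1 hn.hT0 hn.hT1 hδ hn.hW0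
    hn.hA hn.hW
  obtain ⟨k1, hk1⟩ := eventually_lin σ (c + Real.log 2 + q * Real.log J) 0 hσ
  refine ⟨k1, ?_⟩
  intro Ls C Λ h1 h2 hC n k l hn1 hact1 hact2 IH hslack V _ G U X hUk hUl hU1 hU2 hXU hXc hdeg
  have hC0 : 0 < C := by linarith
  have hE0 : 0 < Real.exp Λ := Real.exp_pos _
  have hUpos : (0 : ℝ) < U.card := lt_trans (by positivity) hU1
  have hUne : U.Nonempty := by
    rw [← Finset.card_pos]; exact_mod_cast hUpos
  have hJ' : (0 : ℝ) < J := by exact_mod_cast hJ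
  have hXpos : (0 : ℝ) < X.card := by
    by_contra hcon
    have : (X.card : ℝ) ≤ 0 := not_lt.mp hcon
    nlinarith
  have hXne : X.Nonempty := by rw [← Finset.card_pos]; exact_mod_cast hXpos
  have key : ∀ a : ℕ, t * lv (sw b1 L1) a l + (1 - t) * lv (sw b2 L2) a l ≤ A * a + B * l := by
    intro a
    unfold lv
    have ha' : (0 : ℝ) ≤ a := Nat.cast_nonneg _
    have hb' : (0 : ℝ) ≤ l := Nat.cast_nonneg _
    nlinarith [mul_le_mul_of_nonneg_right hA ha', mul_le_mul_of_nonneg_right hB hb']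
  have hZ : ∀ a ≤ k, ∀ Z ⊆ U, NoCl G a Z → NoCl Gᶜ l Z →
      (Z.card : ℝ) ≤ Real.exp ((Real.log (2 * C) + B * l) + A * a) := by
    intro a ha Z hZU hZa hZl
    have e0 : Real.exp ((Real.log (2 * C) + B * l) + A * a)
        = 2 * C * Real.exp (A * a + B * l) := by
      rw [show (Real.log (2 * C) + B * l) + A * a
        = Real.log (2 * C) + (A * a + B * l) by ring, Real.exp_add,
        Real.exp_log (by positivity)]
    rw [e0]
    rcases lt_or_eq_of_le ha with hlt | rfl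
    · have := free_bound hC0 (IH a hlt) G Z hZa hZl h1 h2 b1 b2 ht0 ht1 hA hB
      have h0 : 0 < Real.exp (A * a + B * l) := Real.exp_pos _
      nlinarith
    · have e1 : (Z.card : ℝ) ≤ U.card := by exact_mod_cast card_le_card hZU
      have e2 : Λ ≤ A * a + B * l := by
        rcases conv_min ht0 ht1 (key a) with hc | hc
        · exact hact1.trans hc
        · exact hact2.trans hc
      have e3 : Real.exp Λ ≤ Real.exp (A * a + B * l) := Real.exp_le_exp.mpr e2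
      have e4 : C * Real.exp Λ ≤ C * Real.exp (A * a + B * l) :=
        mul_le_mul_of_nonneg_left e3 hC0.le
      linarith
  have hXU' : X ∪ U = U := Finset.union_eq_right.mpr hXU
  have hdens : (p + δ) * X.card * U.card ≤ ∑ x ∈ X, ((nb G x U).card : ℝ) := by
    have h3 : ∑ x ∈ X, ((p + δ) * (U.card : ℝ)) ≤ ∑ x ∈ X, ((nb G x U).card : ℝ) :=
      Finset.sum_le_sum hdeg
    rw [Finset.sum_const, nsmul_eq_mul] at h3
    linarith
  have hfin := hbk V G k l l (Real.log (2 * C) + B * l) X U hXne hUne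
    (by rw [hXU']; exact hUk) (hUl.mono hXU) hUl hZ hdens
  have hlogU : Real.log C + Λ ≤ Real.log U.card := by
    have : Real.log (C * Real.exp Λ) = Real.log C + Λ := by
      rw [Real.log_mul hC0.ne' hE0.ne', Real.log_exp]
    rw [← this]
    exact Real.log_le_log (by positivity) hU1.le
  have hlogX : Real.log U.card ≤ Real.log J + Real.log X.card := by
    rw [← Real.log_mul hJ'.ne' hXpos.ne']
    exact Real.log_le_log hUpos hXc
  have hlogC : 0 ≤ Real.log C := Real.log_nonneg hC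
  have h2C : Real.log (2 * C) = Real.log 2 + Real.log C := Real.log_mul (by norm_num) hC0.ne'
  have hev := hk1 n hn1
  rw [h2C] at hfin
  have hqU : q * (Real.log C + Λ) ≤ q * Real.log U.card :=
    mul_le_mul_of_nonneg_left hlogU hn.hq.le
  have hqX : q * Real.log U.card ≤ q * (Real.log J + Real.log X.card) :=
    mul_le_mul_of_nonneg_left hlogX hn.hq.le
  have hqC : 0 ≤ q * Real.log C := mul_nonneg hn.hq.le hlogC
  linarith

theorem winC_cell {Ls : List (ℝ × ℝ)} {L : ℝ × ℝ} (hLs : ∀ L' ∈ Ls, L'.1 ≤ L'.2) {σ plo phi : ℝ}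
    (hσ : 0 < σ) (hP : 0 < L.1) (hQ : 0 < L.2) (J : ℕ) (hJ : 0 < J)
    (hcell : CellOK Ls L σ plo phi) : WinC Ls L J plo phi :=
  win_cell hLs hσ hP hQ J hJ hcell

theorem winC_red {Ls : List (ℝ × ℝ)} {L : ℝ × ℝ} (hLs : ∀ L' ∈ Ls, L'.1 ≤ L'.2) {plo phi : ℝ}
    (hP : 0 < L.1) (hQ : 0 < L.2) (J : ℕ) (hJ : 0 < J) {L1 L2 : ℝ × ℝ} (h1 : L1 ∈ Ls)
    (h2 : L2 ∈ Ls) {b1 b2 : Bool} {t A B W q β0 T p σ : ℝ} (hσ : 0 < σ) (ht0 : 0 ≤ t) (ht1 : t ≤ 1)
    (hA : t * (sw b1 L1).1 + (1 - t) * (sw b2 L2).1 ≤ A)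
    (hB : t * (sw b1 L1).2 + (1 - t) * (sw b2 L2).2 ≤ B)
    (hn : NOK p q A W β0 T) (hp : p < plo)
    (hslack : ∀ k l : ℕ, l ≤ k → (∀ L' ∈ Ls, lv L k l ≤ lv L' k l) →
      A * k + (B + W) * l + σ * k ≤ (1 + q) * lv L k l) : WinC Ls L J plo phi := by
  set δ : ℝ := (plo - p) / 2 with hδ
  have hδ0 : 0 < δ := by rw [hδ]; linarith
  obtain ⟨k1, hk1⟩ := win_hostX L1 L2 b1 b2 t A B W q β0 T p δ σ J hJ ht0 ht1 hA hB hn hδ0 hσ
  obtain ⟨k2, hk2⟩ := trunc_big L.1 δ hP hδ0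
  refine ⟨max k1 k2, ?_⟩
  intro C hC k l hk hlk hact IH V _ G U X hUk hUl hU1 hU2 hXU hXc hred hblue
  have hkk1 : k1 ≤ k := le_trans (le_max_left _ _) hk
  have hkk2 : k2 ≤ k := le_trans (le_max_right _ _) hk
  have hUbig : 1 ≤ δ * U.card := by
    have h3 := hk2 k hkk2 (lv L k l) C (by
      unfold lv
      have : 0 ≤ L.2 * (l : ℝ) := by positivity
      linarith) hC
    have h4 : δ * (C * Real.exp (lv L k l)) ≤ δ * U.card := mul_le_mul_of_nonneg_left hU1.le hδ0.le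
    linarith
  refine hk1 Ls C (lv L k l) h1 h2 hC k k l hkk1 (lv_sw_le hLs hlk hact h1 b1)
    (lv_sw_le hLs hlk hact h2 b2) (fun a ha => IH a l (by omega)) (hslack k l hlk hact) V G U X
    hUk hUl hU1 hU2 hXU hXc ?_
  intro x hx
  have h3 := hred x hx
  have e : (p + δ) * (U.card : ℝ) + δ * U.card = plo * U.card := by rw [hδ]; ring
  linarith

theorem winC_blue {Ls : List (ℝ × ℝ)} {L : ℝ × ℝ} (hLs : ∀ L' ∈ Ls, L'.1 ≤ L'.2) {plo phi : ℝ}
    (hP : 0 < L.1) (hQ : 0 < L.2) (J : ℕ) (hJ : 0 < J) {L1 L2 : ℝ × ℝ} (h1 : L1 ∈ Ls)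
    (h2 : L2 ∈ Ls) {b1 b2 : Bool} {t A B W q β0 T p σ : ℝ} (hσ : 0 < σ) (ht0 : 0 ≤ t) (ht1 : t ≤ 1)
    (hA : t * (sw b1 L1).1 + (1 - t) * (sw b2 L2).1 ≤ A)
    (hB : t * (sw b1 L1).2 + (1 - t) * (sw b2 L2).2 ≤ B)
    (hn : NOK p q A W β0 T) (hp : p < 1 - phi)
    (hslack : ∀ k l : ℕ, l ≤ k → (∀ L' ∈ Ls, lv L k l ≤ lv L' k l) →
      A * l + (B + W) * k + σ * k ≤ (1 + q) * lv L k l) : WinC Ls L J plo phi := by
  set δ : ℝ := (1 - phi - p) / 2 with hδ
  have hδ0 : 0 < δ := by rw [hδ]; linarith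
  obtain ⟨k1, hk1⟩ := win_hostX L1 L2 b1 b2 t A B W q β0 T p δ σ J hJ ht0 ht1 hA hB hn hδ0 hσ
  obtain ⟨k2, hk2⟩ := trunc_big L.1 δ hP hδ0
  refine ⟨max (max k1 k2) 1, ?_⟩
  intro C hC k l hk hlk hact IH V _ G U X hUk hUl hU1 hU2 hXU hXc hred hblue
  have hkk1 : k1 ≤ k := le_trans (le_trans (le_max_left _ _) (le_max_left _ _)) hk
  have hkk2 : k2 ≤ k := le_trans (le_trans (le_max_right _ _) (le_max_left _ _)) hk
  have hUbig : 1 ≤ δ * U.card := by
    have h3 := hk2 k hkk2 (lv L k l) C (by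
      unfold lv
      have : 0 ≤ L.2 * (l : ℝ) := by positivity
      linarith) hC
    have h4 : δ * (C * Real.exp (lv L k l)) ≤ δ * U.card := mul_le_mul_of_nonneg_left hU1.le hδ0.le
    linarith
  refine hk1 Ls C (lv L k l) h1 h2 hC k l k hkk1 (lv_sw_le' hLs hlk hact h1 b1)
    (lv_sw_le' hLs hlk hact h2 b2) (fun a ha => IH a k (by omega)) (hslack k l hlk hact) V Gᶜ U X
    hUl (by rw [compl_compl']; exact hUk) hU1 hU2 hXU hXc ?_
  intro x hx
  have h3 := hblue x hx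
  have e : (p + δ) * (U.card : ℝ) + δ * U.card = (1 - phi) * U.card := by rw [hδ]; ring
  linarith

/-- **Step by cells.** -/
theorem step_winC (Ls : List (ℝ × ℝ)) (hLs : ∀ L' ∈ Ls, L'.1 ≤ L'.2) (L : ℝ × ℝ) (hL : L ∈ Ls)
    (hP : 0 < L.1) (hQ : 0 < L.2) (J : ℕ) (p : ℕ → ℝ)
    (h0 : p 0 < 1 - Real.exp (-L.2)) (hpJ : Real.exp (-L.1) < p J)
    (hcell : ∀ j < J, WinC Ls L J (p j) (p (j + 1))) :
    StepOK Ls L := by
  classical
  -- common threshold
  have hthr : ∃ K : ℕ, ∀ j < J, ∀ C : ℝ, 1 ≤ C → ∀ k l : ℕ, K ≤ k → l ≤ k →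
    (∀ L' ∈ Ls, lv L k l ≤ lv L' k l) →
    (∀ a b : ℕ, a + b < k + l → BdAt Ls C a b) →
    ∀ (V : Type) [DecidableEq V] (G : SimpleGraph V) (U X : Finset V),
      NoCl G k U → NoCl Gᶜ l U → C * Real.exp (lv L k l) < U.card →
      (U.card : ℝ) ≤ 2 * (C * Real.exp (lv L k l)) → X ⊆ U → (U.card : ℝ) ≤ J * X.card →
      (∀ x ∈ X, p j * U.card - 1 ≤ ((nb G x U).card : ℝ)) →
      (∀ x ∈ X, (1 - p (j + 1)) * U.card - 1 ≤ ((nb Gᶜ x U).card : ℝ)) → False := by
    rcases Nat.eq_zero_or_pos J with rfl | hJ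
    · exact ⟨0, fun j hj => absurd hj (by omega)⟩
    have hw : ∀ j : ℕ, ∃ k0 : ℕ, j < J → ∀ C : ℝ, 1 ≤ C → ∀ k l : ℕ, k0 ≤ k → l ≤ k →
      (∀ L' ∈ Ls, lv L k l ≤ lv L' k l) →
      (∀ a b : ℕ, a + b < k + l → BdAt Ls C a b) →
      ∀ (V : Type) [DecidableEq V] (G : SimpleGraph V) (U X : Finset V),
        NoCl G k U → NoCl Gᶜ l U → C * Real.exp (lv L k l) < U.card →
        (U.card : ℝ) ≤ 2 * (C * Real.exp (lv L k l)) → X ⊆ U → (U.card : ℝ) ≤ J * X.card →
        (∀ x ∈ X, p j * U.card - 1 ≤ ((nb G x U).card : ℝ)) →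
        (∀ x ∈ X, (1 - p (j + 1)) * U.card - 1 ≤ ((nb Gᶜ x U).card : ℝ)) → False := by
      intro j
      by_cases hj : j < J
      · obtain ⟨k0, hk0⟩ := hcell j hj
        exact ⟨k0, fun _ => hk0⟩
      · exact ⟨0, fun h => absurd h hj⟩
    choose K hK using hw
    refine ⟨(Finset.range J).sup K, fun j hj C hC k l hk => ?_⟩
    exact hK j hj C hC k l (le_trans (Finset.le_sup (Finset.mem_range.mpr hj)) hk)
  obtain ⟨K, hK⟩ := hthr
  set δ : ℝ := min (1 - Real.exp (-L.2) - p 0) (p J - Real.exp (-L.1)) with hδ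
  have hδ0 : 0 < δ := lt_min (by linarith) (by linarith)
  obtain ⟨k2, hk2⟩ := trunc_big L.1 δ hP hδ0
  refine ⟨max K (max k2 1), ?_⟩
  intro C hC k l hk hlk hact IH V _ G S hSk hSl
  by_contra hcon
  push Not at hcon
  have hkK : K ≤ k := le_trans (le_max_left _ _) hk
  have hkk2 : k2 ≤ k := le_trans (le_trans (le_max_left _ _) (le_max_right _ _)) hk
  have hk1 : 1 ≤ k := le_trans (le_trans (le_max_right _ _) (le_max_right _ _)) hk
  have hC0 : 0 < C := by linarith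
  rcases l with _ | l
  · exact not_noCl_zero _ _ hSl
  obtain ⟨k, rfl⟩ : ∃ k', k = k' + 1 := ⟨k - 1, by omega⟩
  set Λ : ℝ := lv L ((k + 1 : ℕ) : ℝ) ((l + 1 : ℕ) : ℝ) with hΛ
  have hlv : L.1 * ((k + 1 : ℕ) : ℝ) ≤ Λ := by
    rw [hΛ]; unfold lv
    have : 0 ≤ L.2 * ((l + 1 : ℕ) : ℝ) := by positivity
    linarith
  have hk0 : (0 : ℝ) ≤ L.1 * ((k + 1 : ℕ) : ℝ) := by positivity
  have hE1 : 1 ≤ Real.exp Λ := Real.one_le_exp (by linarith)
  have hT : 1 ≤ C * Real.exp Λ := by nlinarith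
  obtain ⟨U, hUS, hU1, hU2⟩ := exists_trunc S (C * Real.exp Λ) hT hcon
  have hUpos : (0 : ℝ) < U.card := by linarith
  have hUk : NoCl G (k + 1) U := hSk.mono hUS
  have hUl : NoCl Gᶜ (l + 1) U := hSl.mono hUS
  have hUbig : 1 ≤ δ * U.card := by
    have h3 := hk2 (k + 1) hkk2 Λ C hlv hC
    have h4 : δ * (C * Real.exp Λ) ≤ δ * U.card := mul_le_mul_of_nonneg_left hU1.le hδ0.le
    linarith
  have hsum : ∀ x ∈ U, ((nb G x U).card : ℝ) + (nb Gᶜ x U).card + 1 = U.card := by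
    intro x hx
    exact_mod_cast card_nb_add G hx
  -- blue degrees
  have hblue : ∀ x ∈ U, ((nb Gᶜ x U).card : ℝ) ≤ Real.exp (-L.2) * U.card := by
    intro x hx
    have hb := (IH (k + 1) l (by omega) V G (nb Gᶜ x U) (hUk.mono (nb_subset _ _ _))
      (hUl.step hx (nb_subset _ _ _) (fun w hw => (mem_nb.mp hw).2)) L hL).1
    have e : Real.exp (lv L ((k + 1 : ℕ) : ℝ) l) = Real.exp (-L.2) * Real.exp Λ := by
      rw [hΛ, ← Real.exp_add]; congr 1; unfold lv; push_cast; ring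
    rw [e] at hb
    have : Real.exp (-L.2) * (C * Real.exp Λ) ≤ Real.exp (-L.2) * U.card :=
      mul_le_mul_of_nonneg_left hU1.le (Real.exp_pos _).le
    linarith
  -- red degrees
  have hred : ∀ x ∈ U, ((nb G x U).card : ℝ) ≤ Real.exp (-L.1) * U.card := by
    intro x hx
    have hb := (IH k (l + 1) (by omega) V G (nb G x U)
      (hUk.step hx (nb_subset _ _ _) (fun w hw => (mem_nb.mp hw).2)) (hUl.mono (nb_subset _ _ _))
      L hL).1
    have e : Real.exp (lv L k ((l + 1 : ℕ) : ℝ)) = Real.exp (-L.1) * Real.exp Λ := by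
      rw [hΛ, ← Real.exp_add]; congr 1; unfold lv; push_cast; ring
    rw [e] at hb
    have : Real.exp (-L.1) * (C * Real.exp Λ) ≤ Real.exp (-L.1) * U.card :=
      mul_le_mul_of_nonneg_left hU1.le (Real.exp_pos _).le
    linarith
  -- cells
  let rd : V → ℝ := fun x => ((nb G x U).card : ℝ) / U.card
  have hrd0 : ∀ x ∈ U, p 0 ≤ rd x := by
    intro x hx
    have h1 := hsum x hx
    have h2 := hblue x hx
    show p 0 ≤ ((nb G x U).card : ℝ) / U.card
    rw [le_div_iff₀ hUpos]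
    have h3 : δ * U.card ≤ (1 - Real.exp (-L.2) - p 0) * U.card :=
      mul_le_mul_of_nonneg_right (min_le_left _ _) hUpos.le
    linarith
  have hrdJ : ∀ x ∈ U, rd x ≤ p J := by
    intro x hx
    have h2 := hred x hx
    show ((nb G x U).card : ℝ) / U.card ≤ p J
    rw [div_le_iff₀ hUpos]
    have h3 : Real.exp (-L.1) * U.card ≤ p J * U.card :=
      mul_le_mul_of_nonneg_right hpJ.le hUpos.le
    linarith
  have hJ0 : J ≠ 0 := by
    rintro rfl
    have hUne : U.Nonempty := by rw [← Finset.card_pos]; exact_mod_cast hUpos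
    obtain ⟨x, hx⟩ := hUne
    have h1 := hsum x hx
    have h2 := hblue x hx
    have h3 := hred x hx
    have h4 : δ * U.card ≤ (1 - Real.exp (-L.2) - p 0) * U.card :=
      mul_le_mul_of_nonneg_right (min_le_left _ _) hUpos.le
    have h5 : Real.exp (-L.1) * U.card < p 0 * U.card := mul_lt_mul_of_pos_right hpJ hUpos
    linarith
  have hcov : ∀ x ∈ U, ∃ j ∈ Finset.range J, p j ≤ rd x ∧ rd x ≤ p (j + 1) := by
    intro x hx
    rcases exists_cell J p (rd x) (hrd0 x hx) (hrdJ x hx) with h | ⟨j, hj, h1, h2⟩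
    · exact absurd h hJ0
    · exact ⟨j, Finset.mem_range.mpr hj, h1, h2⟩
  have hU' : U ⊆ (Finset.range J).biUnion (fun j => U.filter (fun x => p j ≤ rd x ∧ rd x ≤ p (j + 1))) := by
    intro x hx
    obtain ⟨j, hj, h⟩ := hcov x hx
    exact Finset.mem_biUnion.mpr ⟨j, hj, Finset.mem_filter.mpr ⟨hx, h⟩⟩
  have hcard : U.card ≤ ∑ j ∈ Finset.range J,
      (U.filter (fun x => p j ≤ rd x ∧ rd x ≤ p (j + 1))).card :=
    (Finset.card_le_card hU').trans Finset.card_biUnion_le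
  obtain ⟨j, hj, hjc⟩ : ∃ j ∈ Finset.range J,
      U.card ≤ J * (U.filter (fun x => p j ≤ rd x ∧ rd x ≤ p (j + 1))).card := by
    by_contra hno
    push Not at hno
    have h1 : J * ∑ j ∈ Finset.range J, (U.filter (fun x => p j ≤ rd x ∧ rd x ≤ p (j + 1))).card
        < ∑ j ∈ Finset.range J, U.card := by
      rw [Finset.mul_sum]
      exact Finset.sum_lt_sum_of_nonempty (Finset.nonempty_range_iff.mpr hJ0) hno
    rw [Finset.sum_const, Finset.card_range, smul_eq_mul] at h1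
    have h2 := Nat.mul_le_mul_left J hcard
    omega
  refine hK j (Finset.mem_range.mp hj) C hC (k + 1) (l + 1) hkK hlk hact IH V G U
    (U.filter (fun x => p j ≤ rd x ∧ rd x ≤ p (j + 1))) hUk hUl hU1 hU2
    (Finset.filter_subset _ _) (by exact_mod_cast hjc) ?_ ?_
  · intro x hx
    obtain ⟨hxU, h1, _⟩ := Finset.mem_filter.mp hx
    have h1' : p j ≤ ((nb G x U).card : ℝ) / U.card := h1
    rw [le_div_iff₀ hUpos] at h1'
    linarith
  · intro x hx
    obtain ⟨hxU, _, h2⟩ := Finset.mem_filter.mp hx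
    have h2' : ((nb G x U).card : ℝ) / U.card ≤ p (j + 1) := h2
    rw [div_le_iff₀ hUpos] at h2'
    have := hsum x hxU
    linarith


/-! ### Soundness of the checks -/

theorem xcellchk_sound {N B0 : ℕ} (hN : 0 < N) (hT : TBookThm2) {cs : List CC}
    (hcs : ∀ c ∈ cs, CCOK N B0 c) {Ls : List (ℕ × ℕ)} (hLs : ∀ L ∈ Ls, L.1 ≤ L.2)
    {L lo hi : ℕ × ℕ} (hL1 : 0 < (rl N L).1) (hL2 : 0 < (rl N L).2)
    {top : Bool} (hlo : lo ∈ Ls) (hhi : top = false → hi ∈ Ls) {pl : ℕ} {r : XCell}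
    (h : xcellchk N B0 cs Ls L lo hi top pl r = true) (J : ℕ) (hJ : 0 < J) :
    WinC (Ls.map (rl N)) (rl N L) J ((pl : ℝ) / N) ((r.ph : ℝ) / N) := by
  have hN' : (0 : ℝ) < N := by exact_mod_cast hN
  have hle : ∀ L' ∈ Ls.map (rl N), L'.1 ≤ L'.2 := by
    intro L' hL'
    obtain ⟨L, hL, rfl⟩ := List.mem_map.mp hL'
    unfold rl
    simp only
    rw [div_le_div_iff_of_pos_right hN']
    exact_mod_cast hLs L hL
  cases r with
  | two c =>
    exact winC_cell hle (by positivity) hL1 hL2 J hJ (cellchk2_sound hN hT hcs hlo hhi h)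
  | red ph P =>
    have h' : (npchk N Ls P && decide (P.p < pl) &&
      slackChk N L lo hi top (((N : ℤ) + P.q) * L.1 - (P.A + 1) * N)
        (((N : ℤ) + P.q) * L.2 - (P.B + P.W) * N)) = true := h
    simp only [Bool.and_eq_true, decide_eq_true_eq] at h'
    obtain ⟨⟨g1, g2⟩, g3⟩ := h'
    have hP := npchk_sound hN g1
    refine winC_red hle hL1 hL2 J hJ hP.h1 hP.h2 (σ := 1 / N) (by positivity) hP.ht0 hP.ht1 hP.hA
      hP.hB hP.hn ?_ ?_
    · apply div_lt_div_of_pos_right _ hN'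
      exact_mod_cast g2
    · intro k l hlk hact
      have hs := slackChk_sound hN g3 k l hlk (hact _ (List.mem_map_of_mem hlo))
        (fun ht => hact _ (List.mem_map_of_mem (hhi ht)))
      push_cast at hs
      unfold rl lv
      simp only
      have e3 : (1 + (P.q : ℝ) / N) * ((L.1 : ℝ) / N * k + (L.2 : ℝ) / N * l)
          - ((P.A : ℝ) / N * k + ((P.B : ℝ) / N + (P.W : ℝ) / N) * l + 1 / N * k)
          = ((((N : ℝ) + P.q) * L.1 - (P.A + 1) * N) * k
            + (((N : ℝ) + P.q) * L.2 - (P.B + P.W) * N) * l) / (N * N) := by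
        field_simp
        ring
      have e4 : 0 ≤ ((((N : ℝ) + P.q) * L.1 - (P.A + 1) * N) * k
            + (((N : ℝ) + P.q) * L.2 - (P.B + P.W) * N) * l) / (N * N) :=
        div_nonneg hs (by positivity)
      linarith
  | blue ph P =>
    have h' : (npchk N Ls P && decide (P.p + ph < N) &&
      slackChk N L lo hi top (((N : ℤ) + P.q) * L.1 - (P.B + P.W + 1) * N)
        (((N : ℤ) + P.q) * L.2 - P.A * N)) = true := h
    simp only [Bool.and_eq_true, decide_eq_true_eq] at h'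
    obtain ⟨⟨g1, g2⟩, g3⟩ := h'
    have hP := npchk_sound hN g1
    refine winC_blue hle hL1 hL2 J hJ hP.h1 hP.h2 (σ := 1 / N) (by positivity) hP.ht0 hP.ht1 hP.hA
      hP.hB hP.hn ?_ ?_
    · show (P.p : ℝ) / N < 1 - (ph : ℝ) / N
      have : (P.p : ℝ) + ph < N := by exact_mod_cast g2
      rw [lt_sub_iff_add_lt, ← add_div, div_lt_one hN']
      exact this
    · intro k l hlk hact
      have hs := slackChk_sound hN g3 k l hlk (hact _ (List.mem_map_of_mem hlo))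
        (fun ht => hact _ (List.mem_map_of_mem (hhi ht)))
      push_cast at hs
      unfold rl lv
      simp only
      have e3 : (1 + (P.q : ℝ) / N) * ((L.1 : ℝ) / N * k + (L.2 : ℝ) / N * l)
          - ((P.A : ℝ) / N * l + ((P.B : ℝ) / N + (P.W : ℝ) / N) * k + 1 / N * k)
          = ((((N : ℝ) + P.q) * L.1 - (P.B + P.W + 1) * N) * k
            + (((N : ℝ) + P.q) * L.2 - P.A * N) * l) / (N * N) := by
        field_simp
        ring
      have e4 : 0 ≤ ((((N : ℝ) + P.q) * L.1 - (P.B + P.W + 1) * N) * k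
            + (((N : ℝ) + P.q) * L.2 - P.A * N) * l) / (N * N) :=
        div_nonneg hs (by positivity)
      linarith

lemma xcellschk_sound {N B0 : ℕ} (hN : 0 < N) (hT : TBookThm2) {cs : List CC}
    (hcs : ∀ c ∈ cs, CCOK N B0 c) {Ls : List (ℕ × ℕ)} (hLs : ∀ L ∈ Ls, L.1 ≤ L.2)
    {L lo hi : ℕ × ℕ} (hL1 : 0 < (rl N L).1) (hL2 : 0 < (rl N L).2) {top : Bool} (hlo : lo ∈ Ls)
    (hhi : top = false → hi ∈ Ls) : ∀ (rs : List XCell) (pl : ℕ),
    xcellschk N B0 cs Ls L lo hi top pl rs = true →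
    ∃ (J : ℕ) (p : ℕ → ℝ), p 0 = (pl : ℝ) / N ∧ Real.exp (-(rl N L).1) < p J ∧
      ∀ J' : ℕ, 0 < J' → ∀ j < J, WinC (Ls.map (rl N)) (rl N L) J' (p j) (p (j + 1)) := by
  have hN' : (0 : ℝ) < N := by exact_mod_cast hN
  intro rs
  induction rs with
  | nil =>
    intro pl h
    unfold xcellschk at h
    simp only [Bool.and_eq_true, decide_eq_true_eq] at h
    refine ⟨0, fun _ => (pl : ℝ) / N, rfl, ?_, fun _ _ j hj => absurd hj (by omega)⟩
    have h2 := exp_neg_le hN (by omega : 0 < pl - 1) h.2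
    refine lt_of_le_of_lt h2 ?_
    apply div_lt_div_of_pos_right _ hN'
    exact_mod_cast (by omega : pl - 1 < pl)
  | cons r rs ih =>
    intro pl h
    unfold xcellschk at h
    simp only [Bool.and_eq_true] at h
    obtain ⟨h1, h2⟩ := h
    obtain ⟨J, p, hp0, hpJ, hp⟩ := ih r.ph h2
    refine ⟨J + 1, fun j => Nat.casesOn j ((pl : ℝ) / N) p, rfl, hpJ, ?_⟩
    intro J' hJ' j hj
    cases j with
    | zero =>
      have := xcellchk_sound hN hT hcs hLs hL1 hL2 hlo hhi h1 J' hJ'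
      show WinC (Ls.map (rl N)) (rl N L) J' ((pl : ℝ) / N) (p 0)
      rw [hp0]
      exact this
    | succ i => exact hp J' hJ' i (by omega)

theorem xrowchk_sound {N B0 : ℕ} (hN : 0 < N) (hT : TBookThm2) {cs : List CC}
    (hcs : ∀ c ∈ cs, CCOK N B0 c) {Ls : List (ℕ × ℕ)} (hLs : ∀ L ∈ Ls, L.1 ≤ L.2) {r : XRow}
    (hr : r.L ∈ Ls) (h : xrowchk N B0 cs Ls r = true) : StepOK (Ls.map (rl N)) (rl N r.L) := by
  have hN' : (0 : ℝ) < N := by exact_mod_cast hN
  unfold xrowchk at h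
  simp only [Bool.and_eq_true, decide_eq_true_eq] at h
  obtain ⟨⟨⟨⟨⟨⟨h1, h2⟩, h3⟩, h4⟩, h5⟩, h6⟩, h7⟩ := h
  have hle : ∀ L' ∈ Ls.map (rl N), L'.1 ≤ L'.2 := by
    intro L' hL'
    obtain ⟨L, hL, rfl⟩ := List.mem_map.mp hL'
    unfold rl
    simp only
    rw [div_le_div_iff_of_pos_right hN']
    exact_mod_cast hLs L hL
  have hL1 : 0 < (rl N r.L).1 := by
    unfold rl; simp only
    have : (0 : ℝ) < r.L.1 := by exact_mod_cast h1
    positivity
  have hL2 : 0 < (rl N r.L).2 := by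
    unfold rl; simp only
    have h0 : (0 : ℝ) < r.L.1 := by exact_mod_cast h1
    have : (r.L.1 : ℝ) ≤ r.L.2 := by exact_mod_cast h2
    have : (0 : ℝ) < r.L.2 := by linarith
    positivity
  obtain ⟨J, p, hp0, hpJ, hp⟩ := xcellschk_sound hN hT hcs hLs hL1 hL2 (hasL_sound h3) (by
    intro htop
    rw [htop] at h4
    simp only [Bool.false_or] at h4
    exact hasL_sound h4) r.cells r.p0 h7
  refine step_winC _ hle (rl N r.L) (List.mem_map_of_mem hr) hL1 hL2 J p ?_ hpJ ?_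
  · rw [hp0]
    have h8 := exp_neg_le hN (by omega : 0 < N - r.p0 - 1) h6
    have hcst : ((N - r.p0 - 1 : ℕ) : ℝ) = N - r.p0 - 1 := by
      rw [Nat.cast_sub (by omega), Nat.cast_sub (by omega)]; simp
    have h9 : Real.exp (-(rl N r.L).2) ≤ ((N - r.p0 - 1 : ℕ) : ℝ) / N := h8
    rw [hcst] at h9
    have h10 : ((N : ℝ) - r.p0 - 1) / N = 1 - (r.p0 : ℝ) / N - 1 / N := by
      field_simp
    rw [h10] at h9
    have : 0 < 1 / (N : ℝ) := by positivity
    linarith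
  · intro j hj
    exact hp J (by omega) j hj

/-- **Bound from rows with mixed cells on top of a black-box family.** The list `Ls` of all lines is
given separately, so that the rows can be checked one by one in different files. -/
theorem cert_bound5 {N B0 : ℕ} (hN : 0 < N) (hT : TBookThm2) {cs : List CC}
    (hcs : ∀ c ∈ cs, CCOK N B0 c) (Old Ls : List (ℕ × ℕ)) (es : List ERow) (rows : List XRow)
    (C0 : ℝ) (hLs : Ls = Old ++ es.map ERow.L ++ rows.map XRow.L)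
    (hOld : ∀ k l : ℕ, BdAt (Old.map (rl N)) C0 k l)
    (hOle : Old.all (fun L => decide (L.1 ≤ L.2)) = true) (hes : es.all (echk N) = true)
    (hne : rows ≠ []) (hrows : ∀ r ∈ rows, xrowchk N B0 cs Ls r = true) :
    ∃ C : ℝ, 1 ≤ C ∧ ∀ k l : ℕ, BdAt (Ls.map (rl N)) C k l := by
  have hN' : (0 : ℝ) < N := by exact_mod_cast hN
  have hle : ∀ L ∈ Ls, L.1 ≤ L.2 := by
    intro L hL
    rw [hLs, List.mem_append, List.mem_append] at hL
    rcases hL with (hL | hL) | hL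
    · have := List.all_eq_true.mp hOle L hL
      simpa using this
    · obtain ⟨r, hr, rfl⟩ := List.mem_map.mp hL
      have h := List.all_eq_true.mp hes r hr
      unfold echk at h
      simp only [Bool.and_eq_true, decide_eq_true_eq] at h
      exact h.1.1.1.1
    · obtain ⟨r, hr, rfl⟩ := List.mem_map.mp hL
      have h := hrows r hr
      unfold xrowchk at h
      simp only [Bool.and_eq_true, decide_eq_true_eq] at h
      exact h.1.1.1.1.1.2
  apply main_induction_C C0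
  · rw [hLs]
    cases rows with
    | nil => exact absurd rfl hne
    | cons r rows => simp
  · intro L hL
    obtain ⟨L', hL', rfl⟩ := List.mem_map.mp hL
    unfold rl
    simp only
    refine ⟨by positivity, ?_⟩
    rw [div_le_div_iff_of_pos_right hN']
    exact_mod_cast hle L' hL'
  · intro L hL
    obtain ⟨L', hL', rfl⟩ := List.mem_map.mp hL
    have hL2 := hL'
    rw [hLs, List.mem_append, List.mem_append] at hL2
    rcases hL2 with (h | h) | h
    · exact StepC.of_bd hOld (List.mem_map_of_mem h)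
    · obtain ⟨r, hr, rfl⟩ := List.mem_map.mp h
      exact StepC.of_stepOK C0 (echk_sound hN (List.all_eq_true.mp hes r hr))
    · obtain ⟨r, hr, rfl⟩ := List.mem_map.mp h
      exact StepC.of_stepOK C0 (xrowchk_sound hN hT hcs hle hL' (hrows r hr))

end Pool.Agent.T2h39.DU6
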