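import Pool.Agent.TH428.RM.TBook2
import Pool.Agent.TH428.RM.C1
import Pool.Agent.TH428.RM.C2
import Pool.Agent.T2h39.DU6.Sound
import Pool.Agent.T2h39.DU6.Skew
import Pool.Agent.T2h39.DU6.Rows0
import Pool.Agent.T2h39.DU6.Rows1
import Pool.Agent.T2h39.DU6.Rows2
import Pool.Agent.T2h39.DU6.Rows3
import Pool.Agent.T2h39.DU6.Rows4
import Pool.Agent.T2h39.DU6.Rows5
import Pool.Agent.T2h39.DU6.Rows6
import Pool.Agent.T2h39.DU6.Rows7
import Pool.Agent.T2h39.DU6.Rows8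
import Pool.Agent.T2h39.DU6.Rows9
import Pool.Agent.T2h39.DU6.Rows10
import Pool.Agent.T2h39.DU6.Rows11
import Pool.Agent.T2h39.DU6.Rows12
import Pool.Agent.T2h39.DU6.Rows13

set_option autoImplicit false

/-!
# The bounds on Ramsey numbers from the family of lines
-/

namespace Pool.Agent.T2h39.DU6

open W478R H110R2 Pool.Agent.TH502.RM Pool.Agent.TH428.RM

lemma C8c_eight : C8c ((8 : ℕ) : ℝ) ≤ 11879600000 := by
  have h : Real.exp ((8 : ℝ) / 25) ≤ 1.37713 := by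
    have h2 := Real.exp_bound' (x := (8 : ℝ) / 25) (by norm_num) (by norm_num) (n := 8) (by norm_num)
    refine h2.trans ?_
    simp only [Finset.sum_range_succ, Finset.sum_range_zero, Nat.factorial]
    norm_num
  unfold C8c
  push_cast
  norm_num at h ⊢
  linarith

lemma cc1_ok : CCOK 1000000000 8 cc1 where
  hT10 := by decide
  hT1N := by decide
  hT20 := by decide
  hT2N := by decide
  hl1 := by decide +kernel
  hl2 := by decide +kernel
  hcert := by
    have h := nc1_cert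
    have e1 : ((nc1.T1 : ℕ) : ℝ) / (nc1.M : ℕ) = ((cc1.T1 : ℕ) : ℝ) / ((1000000000 : ℕ) : ℝ) := by
      norm_num [nc1, cc1]
    have e2 : ((nc1.T2 : ℕ) : ℝ) / (nc1.M : ℕ) = ((cc1.T2 : ℕ) : ℝ) / ((1000000000 : ℕ) : ℝ) := by
      norm_num [nc1, cc1]
    have e3 : ((nc1.wR : ℕ) : ℝ) / (nc1.wd : ℕ) = ((cc1.wR : ℕ) : ℝ) / ((1000000000 : ℕ) : ℝ) := by
      norm_num [nc1, cc1]
    have e4 : ((nc1.wB : ℕ) : ℝ) / (nc1.wd : ℕ) = ((cc1.wB : ℕ) : ℝ) / ((1000000000 : ℕ) : ℝ) := by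
      norm_num [nc1, cc1]
    rw [e1, e2, e3, e4] at h
    refine ⟨_, _, _, _, _, h, ?_⟩
    have h1 := C8c_eight
    have h2 : ((cc1.G : ℕ) : ℝ) / ((1000000000 : ℕ) : ℝ) ≤
        ((nc1.g0 : ℕ) : ℝ) / (nc1.K : ℕ) - 2 * (((nc1.dl : ℕ) : ℝ) / (nc1.K : ℕ)) * 11879600000 := by
      norm_num [nc1, cc1]
    refine h2.trans ?_
    have h3 : (0 : ℝ) ≤ 2 * (((nc1.dl : ℕ) : ℝ) / (nc1.K : ℕ)) := by positivity
    have h4 := mul_le_mul_of_nonneg_left h1 h3
    linarith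

lemma cc2_ok : CCOK 1000000000 8 cc2 where
  hT10 := by decide
  hT1N := by decide
  hT20 := by decide
  hT2N := by decide
  hl1 := by decide +kernel
  hl2 := by decide +kernel
  hcert := by
    have h := nc2_cert
    have e1 : ((nc2.T1 : ℕ) : ℝ) / (nc2.M : ℕ) = ((cc2.T1 : ℕ) : ℝ) / ((1000000000 : ℕ) : ℝ) := by
      norm_num [nc2, cc2]
    have e2 : ((nc2.T2 : ℕ) : ℝ) / (nc2.M : ℕ) = ((cc2.T2 : ℕ) : ℝ) / ((1000000000 : ℕ) : ℝ) := by
      norm_num [nc2, cc2]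
    have e3 : ((nc2.wR : ℕ) : ℝ) / (nc2.wd : ℕ) = ((cc2.wR : ℕ) : ℝ) / ((1000000000 : ℕ) : ℝ) := by
      norm_num [nc2, cc2]
    have e4 : ((nc2.wB : ℕ) : ℝ) / (nc2.wd : ℕ) = ((cc2.wB : ℕ) : ℝ) / ((1000000000 : ℕ) : ℝ) := by
      norm_num [nc2, cc2]
    rw [e1, e2, e3, e4] at h
    refine ⟨_, _, _, _, _, h, ?_⟩
    have h1 := C8c_eight
    have h2 : ((cc2.G : ℕ) : ℝ) / ((1000000000 : ℕ) : ℝ) ≤
        ((nc2.g0 : ℕ) : ℝ) / (nc2.K : ℕ) - 2 * (((nc2.dl : ℕ) : ℝ) / (nc2.K : ℕ)) * 11879600000 := by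
      norm_num [nc2, cc2]
    refine h2.trans ?_
    have h3 : (0 : ℝ) ≤ 2 * (((nc2.dl : ℕ) : ℝ) / (nc2.K : ℕ)) := by positivity
    have h4 := mul_le_mul_of_nonneg_left h1 h3
    linarith

lemma ccs_ok : ∀ c ∈ ccs, CCOK 1000000000 8 c := by
  intro c hc
  unfold ccs at hc
  simp only [List.mem_cons, List.not_mem_nil, or_false] at hc
  rcases hc with rfl | rfl
  · exact cc1_ok
  · exact cc2_ok

/-- the rows -/
def rows : List XRow :=
  rows0 ++ rows1 ++ rows2 ++ rows3 ++ rows4 ++ rows5 ++ rows6 ++ rows7 ++ rows8 ++ rows9 ++ rows10 ++ rows11 ++ rows12 ++ rows13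

lemma rows_ok : ∀ r ∈ rows, xrowchk 1000000000 8 ccs allL r = true := by
  have h : rows.all (xrowchk 1000000000 8 ccs allL) = true := by
    simp only [rows, List.all_append, Bool.and_eq_true]
    simp only [rows0_ok, rows1_ok, rows2_ok, rows3_ok, rows4_ok, rows5_ok, rows6_ok, rows7_ok, rows8_ok, rows9_ok, rows10_ok, rows11_ok, rows12_ok, rows13_ok, and_self]
  exact List.all_eq_true.mp h

/-- the Erdős–Szekeres rows, with the parameter rounded so that the integer test succeeds -/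
def esF : List ERow := es.map (fun r => ⟨r.L, r.x - 2⟩)

lemma allL_eq : allL = ([] : List (ℕ × ℕ)) ++ esF.map ERow.L ++ rows.map XRow.L := by
  decide +kernel

theorem bound : ∃ C : ℝ, 1 ≤ C ∧ ∀ k l : ℕ, BdAt (allL.map (rl 1000000000)) C k l := by
  refine cert_bound5 (N := 1000000000) (B0 := 8) (by norm_num) tbook2 ccs_ok [] allL esF rows 1
    allL_eq ?_ ?_ ?_ ?_ rows_ok
  · intro k l V _ G Z _ _ L hL
    simp at hL
  · rfl
  · decide +kernel
  · intro h
    have : rows.length = 0 := by rw [h]; rfl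
    revert this
    decide +kernel

/-- segments for the ratios between `1` and `5000` -/
def segsA : List Seg := [
  ⟨(313993325, 979307305), 18, 11, 29, 7, 251676000⟩,
  ⟨(134288142, 1724828796), 29, 7, 32, 3, 251676000⟩,
  ⟨(50007476, 2625957183), 32, 3, 32, 1, 251676000⟩,
  ⟨(16136565, 3710645810), 32, 1, 104, 1, 251676000⟩,
  ⟨(4941660, 4873934865), 104, 1, 348, 1, 251676000⟩,
  ⟨(1441825, 6098728597), 348, 1, 1206, 1, 251676000⟩,
  ⟨(437026, 7305403844), 1206, 1, 3912, 1, 251676000⟩,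
  ⟨(327352, 7616525764), 3912, 1, 5000, 1, 251676000⟩]

/-- the first segment -/
def segA : Seg := ⟨(567308515, 567308515), 1, 1, 18, 11, 251676000⟩

/-- segments for the ratios between `50` and `2500` -/
def segsB : List Seg := [
  ⟨(14349002, 3825122510), 60, 1, 78, 1, 415600000⟩,
  ⟨(10895018, 4094633273), 78, 1, 107, 1, 415600000⟩,
  ⟨(7637236, 4443856855), 107, 1, 157, 1, 415600000⟩,
  ⟨(5141558, 4834680847), 157, 1, 234, 1, 415600000⟩,
  ⟨(3457078, 5228156090), 234, 1, 356, 1, 415600000⟩,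
  ⟨(2232630, 5662856316), 356, 1, 553, 1, 415600000⟩,
  ⟨(1441825, 6098728597), 553, 1, 865, 1, 415600000⟩,
  ⟨(933045, 6534067944), 865, 1, 1337, 1, 415600000⟩,
  ⟨(608657, 6964808221), 1337, 1, 2011, 1, 415600000⟩,
  ⟨(469231, 7231403075), 2011, 1, 2500, 1, 415600000⟩]

/-- the first segment -/
def segB : Seg := ⟨(18139712, 3596868413), 50, 1, 60, 1, 415600000⟩

lemma chainA : chain 1000000000 allL 251676000 (5000, 1) (1, 1) (segA :: segsA) = true := by
  decide +kernel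

lemma chainB : chain 1000000000 allL 415600000 (2500, 1) (50, 1) (segB :: segsB) = true := by
  decide +kernel

end Pool.Agent.T2h39.DU6
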